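import Pool.Agent.Y217.Conv5

/-!
For `N ≥ 2` and `d ≥ 2`, over an algebraically closed field of characteristic zero, the singular
points of `M_d^N` are exactly the classes of the maps with a nontrivial automorphism.
-/

namespace Pool.Agent.Results.MP_807a54_ag.SingularLocus

open Pool.Agent.Helper819.Dyn Pool.Agent.Y217

theorem result : ∀ (k : Type) [Field k] [IsAlgClosed k] [CharZero k] (N d : ℕ), 2 ≤ N → 2 ≤ d →
    ∀ F : EndTuple k N d, IsSingularPoint (cls F) ↔ HasAut F :=
  fun _ _ _ _ _ _ hN hd F => singular_iff hN hd F

end Pool.Agent.Results.MP_807a54_ag.SingularLocus
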